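import Mathlib
import Pool.Agent.H75.FiveLow

/-!
# Growth of the maximum along trajectories of the `5x+1` map
-/

namespace Pool.Agent.Results.MP_dc530b_nt.MaximumGrowth

open Filter Pool.Agent.H75

/-- The `5x+1` map on the integers. -/
def T (x : ℤ) : ℤ := if x % 2 = 0 then x / 2 else (5 * x + 1) / 2

/-- The binary entropy (in base 2) of `log 2 / log 5`; about `0.98609`. -/
noncomputable def h : ℝ := Real.binEntropy (Real.log 2 / Real.log 5) / Real.log 2

theorem T_eq : T = FiveLow.T := by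
  funext x
  unfold T FiveLow.T
  by_cases hx : x % 2 = 0
  · have : ¬ Odd x := by rw [Int.odd_iff]; omega
    rw [if_pos hx, if_neg this]
  · have : Odd x := by rw [Int.odd_iff]; omega
    rw [if_neg hx, if_pos this]

theorem T_pos {x : ℤ} (hx : 1 ≤ x) : 1 ≤ T x := by
  unfold T
  split_ifs with h <;> omega

theorem iter_pos {x : ℤ} (hx : 1 ≤ x) (K : ℕ) : 1 ≤ T^[K] x := by
  induction K with
  | zero => exact hx
  | succ K ih => rw [Function.iterate_succ_apply']; exact T_pos ih

theorem one_lt : (1 : ℝ) < Real.log 5 / Real.log 4 := by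
  have h4 : 0 < Real.log 4 := Real.log_pos (by norm_num)
  rw [one_lt_div h4]
  exact Real.log_lt_log (by norm_num) (by norm_num)

theorem low_bound (M : ℝ) (hM : 1 ≤ M) :
    ((FiveLow.Low 1 M).ncard : ℝ) ≤ (Real.log M / Real.log 2 + 1) * M ^ h := by
  obtain ⟨τ, hτ, he⟩ := FiveLow.exponent 1 one_pos one_lt
  have h1 := FiveLow.low_card 1 M zero_le_one hM τ hτ
  rw [he] at h1
  unfold h
  rw [one_mul] at h1
  exact h1

theorem low_finite (M : ℝ) : (FiveLow.Low 1 M).Finite :=
  (Finset.finite_toSet _).subset (FiveLow.low_sub 1 M)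

theorem count (x : ℤ) (hx : 1 ≤ x) (N : ℕ)
    (hinj : Set.InjOn (fun K : ℕ => T^[K] x) (Set.Iic N)) (M : ℝ) (hM : 1 ≤ M)
    (hle : ∀ K ≤ N, ((T^[K] x : ℤ) : ℝ) ≤ M) :
    (N : ℝ) + 1 ≤ Real.log M / Real.log 2 + (Real.log M / Real.log 2 + 1) * M ^ h := by
  have hl2 : 0 < Real.log 2 := Real.log_pos (by norm_num)
  have hM0 : 0 < M := by linarith
  have hlM : 0 ≤ Real.log M := Real.log_nonneg hM
  set D := ⌊Real.log M / Real.log 2⌋₊ with hD
  have hDle : (D : ℝ) ≤ Real.log M / Real.log 2 := Nat.floor_le (by positivity)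
  have hsub : (fun K : ℕ => T^[K] x) '' (Set.Iio (N + 1 - D)) ⊆ FiveLow.Low 1 M := by
    rintro _ ⟨K, hK, rfl⟩
    rw [Set.mem_Iio] at hK
    have hpos := iter_pos hx K
    have hKM := hle K (by omega)
    refine ⟨hpos, hKM, ?_⟩
    beta_reduce
    rw [Real.rpow_one, ← T_eq, ← Function.iterate_add_apply]
    apply hle
    have h1 : Nat.log 2 (T^[K] x).toNat ≤ D := by
      rw [hD]
      apply Nat.le_floor
      rw [le_div_iff₀ hl2, ← Real.log_pow]
      apply Real.log_le_log (by positivity)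
      refine le_trans ?_ hKM
      have h2 : 2 ^ Nat.log 2 (T^[K] x).toNat ≤ (T^[K] x).toNat :=
        Nat.pow_log_le_self 2 (by omega)
      have h3 : ((2 ^ Nat.log 2 (T^[K] x).toNat : ℕ) : ℤ) ≤ T^[K] x := by
        have : (((T^[K] x).toNat : ℕ) : ℤ) = T^[K] x := Int.toNat_of_nonneg (by omega)
        rw [← this]
        exact_mod_cast h2
      exact_mod_cast h3
    omega
  have h1 : N + 1 - D ≤ (FiveLow.Low 1 M).ncard := by
    calc N + 1 - D = (Set.Iio (N + 1 - D)).ncard := by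
          rw [Set.ncard_eq_toFinset_card']; simp
      _ = ((fun K : ℕ => T^[K] x) '' (Set.Iio (N + 1 - D))).ncard := by
          symm
          apply Set.InjOn.ncard_image
          apply hinj.mono
          intro K hK
          rw [Set.mem_Iio] at hK
          rw [Set.mem_Iic]
          omega
      _ ≤ _ := Set.ncard_le_ncard hsub (low_finite M)
  have h2 : N + 1 ≤ D + (FiveLow.Low 1 M).ncard := by omega
  have h3 : (N : ℝ) + 1 ≤ D + ((FiveLow.Low 1 M).ncard : ℝ) := by exact_mod_cast h2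
  have h4 := low_bound M hM
  linarith

theorem h_nonneg : 0 ≤ h := by
  unfold h
  have hl2 : 0 < Real.log 2 := Real.log_pos (by norm_num)
  have hl5 : 0 < Real.log 5 := Real.log_pos (by norm_num)
  apply div_nonneg _ hl2.le
  apply Real.binEntropy_nonneg
  · positivity
  · rw [div_le_one hl5]
    exact Real.log_le_log (by norm_num) (by norm_num)

theorem main (c : ℝ) (hc : 0 < c) (hch : c * h < 1) :
    ∃ N₀ : ℕ, ∀ N : ℕ, N₀ ≤ N → ∀ x : ℤ, 1 ≤ x →
      Set.InjOn (fun K : ℕ => T^[K] x) (Set.Iic N) →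
      ∃ K ≤ N, (N : ℝ) ^ c ≤ ((T^[K] x : ℤ) : ℝ) := by
  set ε := (1 - c * h) / (2 * c) with hε
  have hε0 : 0 < ε := by
    apply div_pos <;> linarith
  set g := c * (h + ε) with hg
  have hg1 : g < 1 := by
    have : c * ε = (1 - c * h) / 2 := by
      rw [hε]; field_simp
    rw [hg, mul_add, this]; linarith
  have e1 : ∀ᶠ N : ℕ in atTop, Real.log ((N : ℝ) ^ c) / Real.log 2 + 1 ≤ ((N : ℝ) ^ c) ^ ε :=
    ((tendsto_rpow_atTop hc).comp tendsto_natCast_atTop_atTop).eventually
      (FiveLow.log_small ε hε0)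
  have e2 : ∀ᶠ N : ℕ in atTop, (2 : ℝ) ≤ (N : ℝ) ^ (1 - g) :=
    ((tendsto_rpow_atTop (by linarith : 0 < 1 - g)).comp
      tendsto_natCast_atTop_atTop).eventually_ge_atTop 2
  obtain ⟨N₀, hN₀⟩ := Filter.eventually_atTop.1 ((e1.and e2).and (eventually_ge_atTop 1))
  refine ⟨N₀, fun N hN x hx hinj => ?_⟩
  obtain ⟨⟨h1, h2⟩, h3⟩ := hN₀ N hN
  by_contra hcon
  push Not at hcon
  have hN1 : (1 : ℝ) ≤ (N : ℝ) := by exact_mod_cast h3
  have hN0 : (0 : ℝ) < (N : ℝ) := by linarith
  have hM : 1 ≤ (N : ℝ) ^ c := Real.one_le_rpow hN1 hc.le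
  have hM0 : 0 < (N : ℝ) ^ c := by linarith
  have h4 := count x hx N hinj ((N : ℝ) ^ c) hM (fun K hK => (hcon K hK).le)
  set M := (N : ℝ) ^ c with hMdef
  have h5 : 1 ≤ M ^ h := Real.one_le_rpow hM h_nonneg
  have h6 : 0 ≤ Real.log M / Real.log 2 := by
    have := Real.log_nonneg hM
    have hl2 : 0 < Real.log 2 := Real.log_pos (by norm_num)
    positivity
  have h7 : Real.log M / Real.log 2 + (Real.log M / Real.log 2 + 1) * M ^ h ≤
      2 * (M ^ ε * M ^ h) := by
    have a1 : Real.log M / Real.log 2 ≤ (Real.log M / Real.log 2 + 1) * M ^ h := by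
      nlinarith
    have a2 : (Real.log M / Real.log 2 + 1) * M ^ h ≤ M ^ ε * M ^ h :=
      mul_le_mul_of_nonneg_right h1 (by linarith)
    linarith
  have h8 : M ^ ε * M ^ h = (N : ℝ) ^ g := by
    rw [← Real.rpow_add hM0, hMdef, ← Real.rpow_mul hN0.le, hg, add_comm]
  have h9 : 2 * (N : ℝ) ^ g ≤ N := by
    calc 2 * (N : ℝ) ^ g ≤ (N : ℝ) ^ (1 - g) * (N : ℝ) ^ g :=
          mul_le_mul_of_nonneg_right h2 (by positivity)
      _ = (N : ℝ) := by
          rw [← Real.rpow_add hN0]; simp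
  rw [h8] at h7
  linarith

theorem inj_of_divergent (x : ℤ) (hdiv : Tendsto (fun K : ℕ => |T^[K] x|) atTop atTop) :
    Function.Injective (fun K : ℕ => T^[K] x) := by
  have key : ∀ i p : ℕ, 0 < p → T^[i + p] x ≠ T^[i] x := by
    intro i p hp heq
    have h1 : ∀ n : ℕ, T^[i + n * p] x = T^[i] x := by
      intro n
      induction n with
      | zero => simp
      | succ n ih =>
        have : i + (n + 1) * p = n * p + (i + p) := by ring
        rw [this, Function.iterate_add_apply, heq, ← Function.iterate_add_apply, add_comm, ih]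
    have h2 : Tendsto (fun n : ℕ => i + n * p) atTop atTop := by
      apply tendsto_atTop_mono (f := fun n : ℕ => n) _ tendsto_id
      intro n
      nlinarith
    have h3 := hdiv.comp h2
    have h4 := h3.eventually_gt_atTop (|T^[i] x|)
    obtain ⟨n, hn⟩ := h4.exists
    simp only [Function.comp_apply, h1 n, lt_self_iff_false] at hn
  intro i j hij
  simp only at hij
  rcases lt_trichotomy i j with h | h | h
  · exfalso
    apply key i (j - i) (by omega)
    rw [show i + (j - i) = j by omega]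
    exact hij.symm
  · exact h
  · exfalso
    apply key j (i - j) (by omega)
    rw [show j + (i - j) = i by omega]
    exact hij

theorem often (c : ℝ) (hc : 0 < c) (hch : c * h < 1) (x : ℤ) (hx : 1 ≤ x)
    (hdiv : Tendsto (fun K : ℕ => |T^[K] x|) atTop atTop) :
    ∃ᶠ K : ℕ in atTop, (K : ℝ) ^ c ≤ ((T^[K] x : ℤ) : ℝ) := by
  obtain ⟨N₀, hN₀⟩ := main c hc hch
  rw [Filter.frequently_atTop]
  intro K₁
  set B : ℝ := ∑ K ∈ Finset.range K₁, |((T^[K] x : ℤ) : ℝ)| with hB
  have e1 : ∀ᶠ N : ℕ in atTop, B < (N : ℝ) ^ c :=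
    ((tendsto_rpow_atTop hc).comp tendsto_natCast_atTop_atTop).eventually_gt_atTop B
  obtain ⟨N, h1, h2⟩ := (e1.and (eventually_ge_atTop N₀)).exists
  obtain ⟨K, hK, hle⟩ := hN₀ N h2 x hx (inj_of_divergent x hdiv).injOn
  refine ⟨K, ?_, ?_⟩
  · by_contra hlt
    push Not at hlt
    have h3 : |((T^[K] x : ℤ) : ℝ)| ≤ B :=
      Finset.single_le_sum (f := fun K => |((T^[K] x : ℤ) : ℝ)|) (fun _ _ => abs_nonneg _)
        (Finset.mem_range.2 hlt)
    have h4 := le_abs_self ((T^[K] x : ℤ) : ℝ)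
    linarith
  · refine le_trans ?_ hle
    exact Real.rpow_le_rpow (by positivity) (by exact_mod_cast hK) hc.le

theorem gibbs (θ q : ℝ) (h0 : 0 < θ) (h1 : θ < 1) (q0 : 0 < q) (q1 : q < 1) :
    Real.binEntropy θ ≤ -(θ * Real.log q) - (1 - θ) * Real.log (1 - q) := by
  have a1 : Real.log (q / θ) ≤ q / θ - 1 := Real.log_le_sub_one_of_pos (by positivity)
  have a2 : Real.log ((1 - q) / (1 - θ)) ≤ (1 - q) / (1 - θ) - 1 :=
    Real.log_le_sub_one_of_pos (div_pos (by linarith) (by linarith))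
  rw [Real.log_div q0.ne' h0.ne'] at a1
  rw [Real.log_div (by linarith) (by linarith)] at a2
  have b1 : θ * (Real.log q - Real.log θ) ≤ q - θ := by
    calc θ * (Real.log q - Real.log θ) ≤ θ * (q / θ - 1) := mul_le_mul_of_nonneg_left a1 h0.le
      _ = q - θ := by field_simp
  have b2 : (1 - θ) * (Real.log (1 - q) - Real.log (1 - θ)) ≤ (1 - q) - (1 - θ) := by
    have h2 : 0 < 1 - θ := by linarith
    calc (1 - θ) * (Real.log (1 - q) - Real.log (1 - θ)) ≤ (1 - θ) * ((1 - q) / (1 - θ) - 1) :=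
          mul_le_mul_of_nonneg_left a2 h2.le
      _ = (1 - q) - (1 - θ) := by field_simp
  unfold Real.binEntropy
  rw [Real.log_inv, Real.log_inv]
  linarith

theorem h_numeric : 1.014 * h < 1 := by
  have hl2 : 0 < Real.log 2 := Real.log_pos (by norm_num)
  have hl5 : 0 < Real.log 5 := Real.log_pos (by norm_num)
  set θ := Real.log 2 / Real.log 5 with hθ
  have hθ0 : 0 < θ := by positivity
  have hθ1 : θ < 1 := by
    rw [hθ, div_lt_one hl5]
    exact Real.log_lt_log (by norm_num) (by norm_num)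
  have hθ5 : θ * Real.log 5 = Real.log 2 := by
    rw [hθ]; field_simp
  have h1 := gibbs θ (7546 / 17546) hθ0 hθ1 (by norm_num) (by norm_num)
  have h2 : Real.log (7546 / 17546) = Real.log (7546 / 10000) - Real.log (17546 / 10000) := by
    rw [← Real.log_div (by norm_num) (by norm_num)]
    norm_num
  have h3 : Real.log (1 - 7546 / 17546) = - Real.log (17546 / 10000) := by
    rw [← Real.log_inv]
    norm_num
  rw [h2, h3] at h1
  have h4 : 0 ≤ 40 * Real.log (7546 / 10000) + 7 * Real.log 5 := by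
    have a : (1 : ℝ) ≤ (7546 / 10000) ^ 40 * 5 ^ 7 := by norm_num
    have b := Real.log_nonneg a
    rw [Real.log_mul (by norm_num) (by norm_num), Real.log_pow, Real.log_pow] at b
    exact_mod_cast b
  have h5 : 143 * Real.log (17546 / 10000) ≤ 116 * Real.log 2 := by
    have a : ((17546 : ℝ) / 10000) ^ 143 ≤ 2 ^ 116 := by norm_num
    have b := Real.log_le_log (by positivity) a
    rw [Real.log_pow, Real.log_pow] at b
    exact_mod_cast b
  have h6 : Real.binEntropy θ ≤ (7 / 40 + 116 / 143) * Real.log 2 := by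
    have a : -(θ * Real.log (7546 / 10000)) ≤ 7 / 40 * Real.log 2 := by
      have c1 : -Real.log (7546 / 10000) ≤ 7 / 40 * Real.log 5 := by linarith
      calc -(θ * Real.log (7546 / 10000)) = θ * (-Real.log (7546 / 10000)) := by ring
        _ ≤ θ * (7 / 40 * Real.log 5) := mul_le_mul_of_nonneg_left c1 hθ0.le
        _ = 7 / 40 * (θ * Real.log 5) := by ring
        _ = _ := by rw [hθ5]
    have b : Real.log (17546 / 10000) ≤ 116 / 143 * Real.log 2 := by linarith
    nlinarith
  unfold h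
  rw [← hθ]
  have h7 : Real.binEntropy θ / Real.log 2 ≤ 7 / 40 + 116 / 143 := by
    rw [div_le_iff₀ hl2]; exact h6
  calc 1.014 * (Real.binEntropy θ / Real.log 2) ≤ 1.014 * (7 / 40 + 116 / 143) :=
        mul_le_mul_of_nonneg_left h7 (by norm_num)
    _ < 1 := by norm_num

/-- For every real `c > 0` with `c h < 1` (in particular `c = 1.014`) there is `N₀` such that for
every trajectory of the `5x+1` map on the positive integers whose first `N + 1` terms are
pairwise distinct, `N ≥ N₀`, one of these terms is at least `N ^ c`.  Hence, if the trajectory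
of `7` is divergent, then `T^K(7) ≥ K ^ c` for infinitely many `K`. -/
theorem result : 1.014 * h < 1 ∧ ∀ c : ℝ, 0 < c → c * h < 1 →
    (∃ N₀ : ℕ, ∀ N : ℕ, N₀ ≤ N → ∀ x : ℤ, 1 ≤ x →
      Set.InjOn (fun K : ℕ => T^[K] x) (Set.Iic N) →
      ∃ K ≤ N, (N : ℝ) ^ c ≤ ((T^[K] x : ℤ) : ℝ)) ∧
    (Tendsto (fun K : ℕ => |T^[K] 7|) atTop atTop →
      ∃ᶠ K : ℕ in atTop, (K : ℝ) ^ c ≤ ((T^[K] 7 : ℤ) : ℝ)) :=
  ⟨h_numeric, fun c hc hch => ⟨main c hc hch, often c hc hch 7 (by norm_num)⟩⟩

end Pool.Agent.Results.MP_dc530b_nt.MaximumGrowth
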