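import Mathlib
import Pool.Agent.FX.Traj

set_option autoImplicit false

/-!
# Parity blocks of trajectories of the `5x+1` map: a gap theorem

`T` is the `5x+1` map (`Pool.Agent.FX.T`) and `blocks x N` is the number of different blocks
`(T^K(x) mod 2, ..., T^(K+N-1)(x) mod 2)`, `K = 0, 1, 2, ...` (`Pool.Agent.FX.blocks`).
-/

namespace Pool.Agent.Results.MP_dc530b_nt.ParityBlocks

open Pool.Agent.FX

theorem blocks_le {x : ℤ} {i j : ℕ} (hij : i < j) (h : T^[i] x = T^[j] x) (N : ℕ) :
    blocks x N ≤ j := by
  have hred : ∀ K, ∃ K' < j, T^[K] x = T^[K'] x := by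
    intro K
    induction K using Nat.strong_induction_on with
    | _ K ih =>
      by_cases hK : K < j
      · exact ⟨K, hK, rfl⟩
      · push Not at hK
        obtain ⟨K', h1, h2⟩ := ih (K - (j - i)) (by omega)
        refine ⟨K', h1, ?_⟩
        rw [← h2]
        have e1 : K = (K - j) + j := by omega
        have e2 : K - (j - i) = (K - j) + i := by omega
        rw [e2]
        conv_lhs => rw [e1]
        rw [Function.iterate_add_apply, Function.iterate_add_apply, h]
  unfold blocks
  have hsub : (Set.range fun (K : ℕ) (i : Fin N) => T^[K + i] x % 2) ⊆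
      (fun (K : ℕ) (i : Fin N) => T^[K + i] x % 2) '' (Set.Iio j) := by
    rintro _ ⟨K, rfl⟩
    obtain ⟨K', h1, h2⟩ := hred K
    refine ⟨K', h1, ?_⟩
    funext a
    simp only
    rw [Nat.add_comm K' a, Nat.add_comm K a, Function.iterate_add_apply,
      Function.iterate_add_apply, h2]
  calc _ ≤ ((fun (K : ℕ) (i : Fin N) => T^[K + i] x % 2) '' (Set.Iio j)).ncard :=
        Set.ncard_le_ncard hsub ((Set.finite_Iio j).image _)
    _ ≤ (Set.Iio j).ncard := Set.ncard_image_le (Set.finite_Iio j)
    _ = j := by rw [Set.ncard_eq_toFinset_card']; simp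

/-- Let `x` be a positive integer and `N ≥ 20000 (log₂ x + 5)`. If the parity sequence of the
trajectory of `x` under the `5x+1` map has at most `(1 + 1/200) N` different blocks of length `N`,
then two iterates with indices at most `(1 + 1/200) N` coincide. Hence the trajectory is divergent
if and only if there are more than `(1 + 1/200) N` blocks for all `N ≥ 20000 (log₂ x + 5)`. -/
theorem result (x : ℤ) (hx : 0 < x) :
    (∀ N : ℕ, 20000 * (Nat.log 2 x.toNat + 5) ≤ N → 200 * blocks x N ≤ 201 * N →
      ∃ i j : ℕ, i < j ∧ 200 * j ≤ 201 * N ∧ T^[i] x = T^[j] x) ∧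
    (Filter.Tendsto (fun K : ℕ => |T^[K] x|) Filter.atTop Filter.atTop ↔
      ∀ N : ℕ, 20000 * (Nat.log 2 x.toNat + 5) ≤ N → 201 * N < 200 * blocks x N) := by
  refine ⟨fun N hN h => effective hx N hN h, ?_⟩
  rw [tendsto_iff]
  constructor
  · intro hne N hN
    by_contra hcon
    push Not at hcon
    obtain ⟨i, j, hij, -, h⟩ := effective hx N hN hcon
    exact hne i j hij h
  · intro hall i j hij h
    have h1 := hall (20000 * (Nat.log 2 x.toNat + 5) + j) (by omega)
    have h2 := blocks_le hij h (20000 * (Nat.log 2 x.toNat + 5) + j)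
    omega

end Pool.Agent.Results.MP_dc530b_nt.ParityBlocks
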